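import Pool.Agent.Y817.WK.Stm

/-!
# The relations imply that the words vanish (project WK, part DERIVE)
-/

set_option autoImplicit false
set_option linter.unusedSectionVars false

namespace Pool.Agent.U133.WK

open Pool.Agent.Y817.WK

variable {V ι : Type} [Fintype V] [DecidableEq V] [Fintype ι] {n : V} {Q : ι → Quad V}
  {A : Type} [NonUnitalRing A] {g : Gen V ι → A}

/-- `p x_{j1} x_{j2} ⋯` -/
def P (g : Gen V ι → A) (l : List V) : A := (l.map (Gen.x : V → Gen V ι)).foldl (fun u y => u * g y) (g .p)

theorem P_append (l : List V) (j : V) : P g (l ++ [j]) = P g l * g (.x j) := by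
  simp [P]

theorem P_e (h : Rel n Q g) (k : V) (l : List V) :
    P g l * g (.e k) = - ((l.count k : ℤ) • (P g l * g .z)) := by
  induction l using List.reverseRecOn with
  | nil => simp [P, h.pe]
  | append_singleton l j ih =>
    rw [P_append, mul_assoc, h.xe j k, mul_sub, ← mul_assoc, ih, List.count_append]
    have h1 : P g l * g .z * g (.x j) = P g l * g (.x j) * g .z := by
      rw [mul_assoc, h.zx j, ← mul_assoc]
    by_cases hjk : j = k
    · subst hjk
      rw [if_pos rfl, neg_mul, smul_mul_assoc, h1, ← mul_assoc]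
      simp [add_smul, neg_add, sub_eq_add_neg, add_comm]
    · rw [if_neg hjk, neg_mul, smul_mul_assoc, h1, mul_zero, sub_zero]
      simp [hjk]

theorem P_ins (h : Rel n Q g) (i : V) (hi : i ≠ n) (l : List V) :
    P g (l ++ [i]) * g .z * g .q0 = P g l * g .z * g .q0 := by
  rw [P_append, mul_assoc (P g l) (g .z) (g .q0), h.rh i hi]
  simp only [mul_assoc]

theorem P_ins_list (h : Rel n Q g) (l' : List V) (hl : ∀ i ∈ l', i ≠ n) (l : List V) :
    P g (l ++ l') * g .z * g .q0 = P g l * g .z * g .q0 := by
  induction l' using List.reverseRecOn with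
  | nil => simp
  | append_singleton l' i ih =>
    rw [← List.append_assoc, P_ins h i (hl i (by simp)), ih fun j hj => hl j (by simp [hj])]

theorem P_zero (h : Rel n Q g) (l : List V) (hQ : ∀ s, (Q s).val (fun v => ((l.count v : ℕ) : ℤ)) = 0) :
    P g l * g .z * g .q0 = 0 := by
  have e0 : P g l * g .z * g .q0 + ∑ k, P g l * g (.e k) * g (.q1 k) +
      ∑ s, (Q s).d • (P g l * g .z * g (.q2 s)) = 0 := by
    have := congrArg (fun w => P g l * w) h.r0
    simpa [mul_add, Finset.mul_sum, mul_assoc, mul_smul_comm] using this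
  have e1 : ∀ k, P g l * g .z * g (.q1 k) + ∑ s, ((Q s).B k • (P g l * g .z * g (.q2 s)) -
      ∑ i, (Q s).A i k • (P g l * g (.e i) * g (.q2 s))) = 0 := by
    intro k
    have := congrArg (fun w => P g l * w) (h.r1 k)
    simpa [mul_add, mul_sub, Finset.mul_sum, mul_assoc, mul_smul_comm] using this
  simp only [P_e h, neg_mul, smul_mul_assoc] at e0 e1
  have e2 : ∀ k, P g l * g .z * g (.q1 k) = - ∑ s, ((Q s).B k + ∑ i, (Q s).A i k * (l.count i : ℤ)) •
      (P g l * g .z * g (.q2 s)) := by
    intro k
    rw [eq_neg_iff_add_eq_zero, ← e1 k]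
    congr 1
    refine Finset.sum_congr rfl fun s _ => ?_
    rw [add_smul, Finset.sum_smul, sub_eq_add_neg, ← Finset.sum_neg_distrib]
    congr 1
    refine Finset.sum_congr rfl fun i _ => ?_
    rw [smul_neg, neg_neg, mul_smul]
  have e3 : ∀ k, - ((l.count k : ℤ) • (P g l * g .z * g (.q1 k))) =
      ∑ s, ((l.count k : ℤ) * ((Q s).B k + ∑ i, (Q s).A i k * (l.count i : ℤ))) •
        (P g l * g .z * g (.q2 s)) := by
    intro k
    rw [e2 k, smul_neg, neg_neg, Finset.smul_sum]
    exact Finset.sum_congr rfl fun s _ => (mul_smul _ _ _).symm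
  simp only [e3] at e0
  rw [Finset.sum_comm, add_assoc, ← Finset.sum_add_distrib] at e0
  rw [← e0, left_eq_add]
  refine Finset.sum_eq_zero fun s _ => ?_
  rw [← Finset.sum_smul, ← add_smul]
  have : (∑ k, (l.count k : ℤ) * ((Q s).B k + ∑ i, (Q s).A i k * (l.count i : ℤ))) + (Q s).d =
      (Q s).val (fun v => ((l.count v : ℕ) : ℤ)) := by
    unfold Quad.val
    congr 1
    rw [Finset.sum_comm (f := fun i k => (Q s).A i k * (l.count i : ℤ) * (l.count k : ℤ)),
      ← Finset.sum_add_distrib]
    refine Finset.sum_congr rfl fun k _ => ?_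
    rw [mul_add, Finset.mul_sum, add_comm]
    congr 1
    · exact Finset.sum_congr rfl fun i _ => by ring
    · ring
  rw [this, hQ s, zero_smul]

theorem derive : StmDerive := by
  intro V ι _ _ _ n Q A _ g h c ⟨y, hyn, hy⟩
  let m : Multiset V := ∑ i ∈ Finset.univ.erase n, Multiset.replicate (y i) i
  have hm : ∀ k, m.count k = if k = n then 0 else y k := by
    intro k
    simp only [m, Multiset.count_sum', Multiset.count_replicate]
    rw [Finset.sum_ite_eq']
    by_cases hk : k = n <;> simp [hk]
  let l : List V := List.replicate c n ++ m.toList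
  have hc1 : ∀ k, m.toList.count k = if k = n then 0 else y k := by
    intro k
    rw [← hm k, ← Multiset.coe_count, Multiset.coe_toList]
  have hl : ∀ k, l.count k = y k := by
    intro k
    show (List.replicate c n ++ m.toList).count k = y k
    rw [List.count_append, hc1 k, List.count_replicate]
    by_cases hk : k = n
    · simp [hk, hyn]
    · simp [hk, Ne.symm hk]
  have h0 : P g l * g .z * g .q0 = 0 := by
    refine P_zero h l fun s => ?_
    simp only [hl]
    exact hy s
  have h1 : P g l * g .z * g .q0 = P g (List.replicate c n) * g .z * g .q0 := by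
    refine P_ins_list h _ (fun i hi hin => ?_) _
    subst hin
    have := hc1 i
    simp only [if_true] at this
    exact List.count_eq_zero.1 this hi
  have h2 : W n g c = P g (List.replicate c n) * g .z * g .q0 := by
    simp [W, P]
  rw [h2, ← h1, h0]

end Pool.Agent.U133.WK
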