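import Pool.Agent.Y817.WK.Stm

/-!
# Polynomial solutions of the differential equations (project WK, part PDE)
-/

set_option autoImplicit false

namespace Pool.Agent.U133.WK

open Pool.Agent.Y817.WK MvPolynomial

variable {K : Type} [Field K] {V : Type}

theorem coeff_euler (i : V) (f : MvPolynomial V K) (y : V →₀ ℕ) :
    coeff y (euler i f) = (y i : K) * coeff y f := by
  classical
  unfold euler
  induction f using MvPolynomial.induction_on' with
  | monomial m r =>
    rw [X_mul_pderiv_monomial, coeff_smul, coeff_monomial]
    split_ifs with h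
    · subst h
      simp
    · simp
  | add f g hf hg => rw [map_add, mul_add, coeff_add, hf, hg, coeff_add, mul_add]

theorem pde : StmPde := by
  classical
  intro K _ _ V ι _ _ _ n Q c f g h h1 h2 h3
  -- the coefficients
  have key : ∀ (y : V →₀ ℕ) (s : ι), coeff y f * (((Q s).val fun v => (y v : ℤ)) : K) = 0 := by
    intro y s
    have h4 := congrArg (coeff y) (h3 s)
    simp only [h2] at h4
    rw [coeff_add, coeff_sum, coeff_zero] at h4
    simp only [coeff_add, coeff_sum] at h4
    have ez : ∀ (a : ℤ) (p : MvPolynomial V K), coeff y (a • p) = (a : K) * coeff y p := by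
      intro a p
      rw [← Int.cast_smul_eq_zsmul K a p, coeff_smul, smul_eq_mul]
    simp only [ez, coeff_euler] at h4
    rw [← h4]
    unfold Quad.val
    push_cast
    rw [mul_add, mul_add, Finset.mul_sum, Finset.mul_sum, Finset.sum_add_distrib]
    have e1 : ∑ i, coeff y f * ∑ k, ((Q s).A i k : K) * (y i : K) * (y k : K) =
        ∑ k, ∑ i, ((Q s).A i k : K) * ((y i : K) * ((y k : K) * coeff y f)) := by
      rw [Finset.sum_comm]
      refine Finset.sum_congr rfl fun i _ => ?_
      rw [Finset.mul_sum]
      exact Finset.sum_congr rfl fun k _ => by ring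
    have e2 : ∑ k, coeff y f * (((Q s).B k : K) * (y k : K)) =
        ∑ k, ((Q s).B k : K) * ((y k : K) * coeff y f) :=
      Finset.sum_congr rfl fun k _ => by ring
    rw [e1, e2]
    ring
  -- substitution
  let φ : MvPolynomial V K →ₐ[K] Polynomial K := aeval fun i => if i = n then Polynomial.X else 1
  have hφ : φ f = Polynomial.X ^ c := by
    have h4 := congrArg φ h1
    rw [map_add, map_sum, map_pow] at h4
    have h5 : ∀ i, φ (if i = n then 0 else (1 - X i) * h i) = 0 := by
      intro i
      split_ifs with hi
      · exact map_zero _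
      · rw [map_mul, map_sub, map_one]
        simp [φ, hi]
    rw [Finset.sum_eq_zero fun i _ => h5 i, add_zero] at h4
    rw [h4]
    simp [φ]
  by_contra hno
  have hz : ∀ y ∈ f.support, y n ≠ c := by
    intro y hy hyc
    apply hno
    refine ⟨fun v => y v, hyc, fun s => ?_⟩
    have h4 := key y s
    rcases mul_eq_zero.1 h4 with h5 | h5
    · exact absurd h5 (mem_support_iff.1 hy)
    · exact_mod_cast h5
  have hc : (φ f).coeff c = 0 := by
    rw [f.as_sum, map_sum, Polynomial.finsetSum_coeff]
    refine Finset.sum_eq_zero fun y hy => ?_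
    have h6 : φ (monomial y (coeff y f)) = Polynomial.C (coeff y f) * Polynomial.X ^ (y n) := by
      simp only [φ, aeval_monomial]
      rw [Finsupp.prod_fintype _ _ (by simp)]
      rw [Finset.prod_eq_single n]
      · simp
      · intro b _ hb
        simp [hb]
      · simp
    rw [h6, Polynomial.coeff_C_mul_X_pow, if_neg (Ne.symm (hz y hy))]
  rw [hφ, Polynomial.coeff_X_pow_self] at hc
  exact one_ne_zero hc

end Pool.Agent.U133.WK
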