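import Pool.Agent.Y817.WK.Stm

/-!
# The algebra of block triangular matrices (project WK, part TRI)
-/

set_option autoImplicit false

namespace Pool.Agent.U133.WK

open Pool.Agent.Y817.WK

variable (K S M : Type) [Field K] [CommRing S] [Algebra K S] [AddCommGroup M] [Module K M]

/-- Block triangular matrices: `r = (a, δ, c)` in the middle, the row `u`, the column `q`, the corner `m`. -/
@[ext] structure T where
  a : S
  δ : Derivation K S S
  c : S
  f : S
  h : S
  qm : S →ₗ[K] M
  qf : S →ₗ[K] M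
  m : M

variable {K S M}

namespace T

instance : Zero (T K S M) := ⟨⟨0, 0, 0, 0, 0, 0, 0, 0⟩⟩
instance : Add (T K S M) := ⟨fun x y => ⟨x.a + y.a, x.δ + y.δ, x.c + y.c, x.f + y.f, x.h + y.h, x.qm + y.qm,
  x.qf + y.qf, x.m + y.m⟩⟩
instance : Neg (T K S M) := ⟨fun x => ⟨-x.a, -x.δ, -x.c, -x.f, -x.h, -x.qm, -x.qf, -x.m⟩⟩
instance : Sub (T K S M) := ⟨fun x y => ⟨x.a - y.a, x.δ - y.δ, x.c - y.c, x.f - y.f, x.h - y.h, x.qm - y.qm,
  x.qf - y.qf, x.m - y.m⟩⟩
instance : SMul K (T K S M) := ⟨fun k x => ⟨k • x.a, k • x.δ, k • x.c, k • x.f, k • x.h, k • x.qm, k • x.qf,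
  k • x.m⟩⟩

/-- multiplication -/
instance : Mul (T K S M) := ⟨fun x y =>
  ⟨x.a * y.a, y.a • x.δ + x.a • y.δ, y.a * x.c + x.a * y.c + y.δ x.a,
    x.f * y.a, x.h * y.a + y.δ x.f + y.c * x.f,
    y.qm ∘ₗ LinearMap.mulLeft K x.a,
    y.qf ∘ₗ LinearMap.mulLeft K x.a + y.qm ∘ₗ ((x.δ : S →ₗ[K] S) + LinearMap.mulLeft K x.c),
    y.qf x.f + y.qm x.h⟩⟩

@[simp] theorem zero_a : (0 : T K S M).a = 0 := rfl
@[simp] theorem zero_δ : (0 : T K S M).δ = 0 := rfl
@[simp] theorem zero_c : (0 : T K S M).c = 0 := rfl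
@[simp] theorem zero_f : (0 : T K S M).f = 0 := rfl
@[simp] theorem zero_h : (0 : T K S M).h = 0 := rfl
@[simp] theorem zero_qm : (0 : T K S M).qm = 0 := rfl
@[simp] theorem zero_qf : (0 : T K S M).qf = 0 := rfl
@[simp] theorem zero_m : (0 : T K S M).m = 0 := rfl
@[simp] theorem add_a (x y : T K S M) : (x + y).a = x.a + y.a := rfl
@[simp] theorem add_δ (x y : T K S M) : (x + y).δ = x.δ + y.δ := rfl
@[simp] theorem add_c (x y : T K S M) : (x + y).c = x.c + y.c := rfl
@[simp] theorem add_f (x y : T K S M) : (x + y).f = x.f + y.f := rfl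
@[simp] theorem add_h (x y : T K S M) : (x + y).h = x.h + y.h := rfl
@[simp] theorem add_qm (x y : T K S M) : (x + y).qm = x.qm + y.qm := rfl
@[simp] theorem add_qf (x y : T K S M) : (x + y).qf = x.qf + y.qf := rfl
@[simp] theorem add_m (x y : T K S M) : (x + y).m = x.m + y.m := rfl
@[simp] theorem sub_a (x y : T K S M) : (x - y).a = x.a - y.a := rfl
@[simp] theorem sub_δ (x y : T K S M) : (x - y).δ = x.δ - y.δ := rfl
@[simp] theorem sub_c (x y : T K S M) : (x - y).c = x.c - y.c := rfl
@[simp] theorem sub_f (x y : T K S M) : (x - y).f = x.f - y.f := rfl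
@[simp] theorem sub_h (x y : T K S M) : (x - y).h = x.h - y.h := rfl
@[simp] theorem sub_qm (x y : T K S M) : (x - y).qm = x.qm - y.qm := rfl
@[simp] theorem sub_qf (x y : T K S M) : (x - y).qf = x.qf - y.qf := rfl
@[simp] theorem sub_m (x y : T K S M) : (x - y).m = x.m - y.m := rfl
@[simp] theorem neg_a (x : T K S M) : (-x).a = -x.a := rfl
@[simp] theorem neg_δ (x : T K S M) : (-x).δ = -x.δ := rfl
@[simp] theorem neg_c (x : T K S M) : (-x).c = -x.c := rfl
@[simp] theorem neg_f (x : T K S M) : (-x).f = -x.f := rfl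
@[simp] theorem neg_h (x : T K S M) : (-x).h = -x.h := rfl
@[simp] theorem neg_qm (x : T K S M) : (-x).qm = -x.qm := rfl
@[simp] theorem neg_qf (x : T K S M) : (-x).qf = -x.qf := rfl
@[simp] theorem neg_m (x : T K S M) : (-x).m = -x.m := rfl
@[simp] theorem smul_a (k : K) (x : T K S M) : (k • x).a = k • x.a := rfl
@[simp] theorem smul_δ (k : K) (x : T K S M) : (k • x).δ = k • x.δ := rfl
@[simp] theorem smul_c (k : K) (x : T K S M) : (k • x).c = k • x.c := rfl
@[simp] theorem smul_f (k : K) (x : T K S M) : (k • x).f = k • x.f := rfl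
@[simp] theorem smul_h (k : K) (x : T K S M) : (k • x).h = k • x.h := rfl
@[simp] theorem smul_qm (k : K) (x : T K S M) : (k • x).qm = k • x.qm := rfl
@[simp] theorem smul_qf (k : K) (x : T K S M) : (k • x).qf = k • x.qf := rfl
@[simp] theorem smul_m (k : K) (x : T K S M) : (k • x).m = k • x.m := rfl
@[simp] theorem mul_a (x y : T K S M) : (x * y).a = x.a * y.a := rfl
@[simp] theorem mul_δ (x y : T K S M) : (x * y).δ = y.a • x.δ + x.a • y.δ := rfl
@[simp] theorem mul_c (x y : T K S M) : (x * y).c = y.a * x.c + x.a * y.c + y.δ x.a := rfl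
@[simp] theorem mul_f (x y : T K S M) : (x * y).f = x.f * y.a := rfl
@[simp] theorem mul_h (x y : T K S M) : (x * y).h = x.h * y.a + y.δ x.f + y.c * x.f := rfl
@[simp] theorem mul_qm (x y : T K S M) : (x * y).qm = y.qm ∘ₗ LinearMap.mulLeft K x.a := rfl
@[simp] theorem mul_qf (x y : T K S M) : (x * y).qf = y.qf ∘ₗ LinearMap.mulLeft K x.a +
  y.qm ∘ₗ ((x.δ : S →ₗ[K] S) + LinearMap.mulLeft K x.c) := rfl
@[simp] theorem mul_m (x y : T K S M) : (x * y).m = y.qf x.f + y.qm x.h := rfl

instance : AddCommGroup (T K S M) where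
  add_assoc x y z := by ext <;> simp [add_assoc]
  zero_add x := by ext <;> simp
  add_zero x := by ext <;> simp
  add_comm x y := by ext <;> simp [add_comm]
  neg_add_cancel x := by ext <;> simp
  sub_eq_add_neg x y := by ext <;> simp [sub_eq_add_neg]
  nsmul := nsmulRec
  zsmul := zsmulRec

instance : Module K (T K S M) where
  one_smul x := by ext <;> simp
  mul_smul k l x := by ext <;> simp [mul_smul]
  smul_zero k := by ext <;> simp
  smul_add k x y := by ext <;> simp
  add_smul k l x := by ext <;> simp [add_smul]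
  zero_smul x := by ext <;> simp

instance : NonUnitalRing (T K S M) where
  left_distrib x y z := by
    ext <;> simp <;> first | ring1 | ((try ring_nf) <;> (try simp only [map_add]) <;> (try abel))
  right_distrib x y z := by
    ext <;> simp <;> first | ring1 | ((try ring_nf) <;> (try simp only [map_add]) <;> (try abel))
  zero_mul x := by ext <;> simp
  mul_zero x := by ext <;> simp
  mul_assoc x y z := by
    ext <;> simp <;> first | ring1 | ((try ring_nf) <;> (try simp only [map_add]) <;> (try abel))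

instance : IsScalarTower K (T K S M) (T K S M) where
  smul_assoc k x y := by
    ext <;> simp [smul_smul, mul_comm]

instance : SMulCommClass K (T K S M) (T K S M) where
  smul_comm k x y := by
    ext <;> simp [smul_smul, mul_comm]

theorem comm_mid (x y : T K S M) : (x * y - y * x).a = 0 ∧ (x * y - y * x).δ = 0 := by
  constructor
  · simp [mul_comm]
  · simp [add_comm]

theorem inW : InW (T K S M) := by
  constructor
  · intro x y z t u v
    obtain ⟨h1, h2⟩ := comm_mid y z
    obtain ⟨h3, h4⟩ := comm_mid t u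
    generalize y * z - z * y = w at *
    generalize t * u - u * t = w' at *
    ext <;> simp [h1, h2, h3, h4]
  · intro x y z t u
    obtain ⟨h1, h2⟩ := comm_mid y z
    generalize y * z - z * y = w at *
    have h3 : (w * t - t * w).a = 0 := by simp [mul_comm]
    have h4 : (w * t - t * w).δ = 0 := by simp [h1, h2]
    have h5 : (w * t - t * w).c = 0 := by simp [h1, h2, mul_comm]
    generalize w * t - t * w = w' at *
    ext <;> simp [h3, h4, h5]

end T

theorem tri : StmTri := by
  intro K _ S _ _ M _ _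
  refine ⟨T K S M, inferInstance, inferInstance, inferInstance, inferInstance,
    fun a δ c => ⟨a, δ, c, 0, 0, 0, 0, 0⟩, fun f h => ⟨0, 0, 0, f, h, 0, 0, 0⟩,
    { toFun := fun φ => ⟨0, 0, 0, 0, 0, φ, 0, 0⟩, map_zero' := rfl, map_add' := ?_ },
    { toFun := fun φ => ⟨0, 0, 0, 0, 0, 0, φ, 0⟩, map_zero' := rfl, map_add' := ?_ },
    fun m => ⟨0, 0, 0, 0, 0, 0, 0, m⟩, T.inW, rfl, ?_, ?_, ?_, rfl, ?_, ?_, ?_, ?_, ?_⟩
  · intro φ ψ
    ext <;> simp
  · intro φ ψ
    ext <;> simp
  · intro m m' h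
    exact congrArg T.m h
  · intro a δ c a' δ' c'
    ext <;> simp
  · intro a δ c a' δ' c'
    ext <;> simp
  · intro f h a δ c
    ext <;> simp
  · intro a c δ φ
    ext <;> simp
  · intro c δ φ
    ext <;> simp
  · intro f h φ
    ext <;> simp
  · intro f h φ
    ext <;> simp

end Pool.Agent.U133.WK
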